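import Pool.Agent.K1H73.SQB.Stm2
import Pool.Agent.Y61.SQ.AVG

/-!
# Project SQB, part 2: `S_BOX2`
-/

set_option autoImplicit false

namespace Pool.Agent.K1H66.SQB

open Finset Pool.Agent.Y862.SQ Pool.Agent.K1H73.SQB Pool.Agent.Y61.SQ

theorem prod_close {ι : Type*} (s : Finset ι) (a b : ι → ℝ) (X e : ℝ) (hX : 0 ≤ X) (he : 0 ≤ e)
    (he1 : e ≤ 1) (hb : ∀ i ∈ s, |b i| ≤ X) (hab : ∀ i ∈ s, |a i - b i| ≤ e) :
    |∏ i ∈ s, a i - ∏ i ∈ s, b i| ≤ s.card * e * (X + 1) ^ s.card := by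
  classical
  induction s using Finset.induction_on with
  | empty => simp
  | insert i s hi ih =>
    have hb' : ∀ j ∈ s, |b j| ≤ X := fun j hj => hb j (mem_insert_of_mem hj)
    have hab' : ∀ j ∈ s, |a j - b j| ≤ e := fun j hj => hab j (mem_insert_of_mem hj)
    have ih' := ih hb' hab'
    have hbi := hb i (mem_insert_self _ _)
    have habi := hab i (mem_insert_self _ _)
    have hP : |∏ j ∈ s, a j| ≤ (X + 1) ^ s.card := by
      rw [abs_prod]
      calc ∏ j ∈ s, |a j| ≤ ∏ _j ∈ s, (X + 1) :=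
            prod_le_prod (fun _ _ => abs_nonneg _) (fun j hj => by
              have h1 := hb' j hj
              have h2 := hab' j hj
              have h3 : |a j| ≤ |a j - b j| + |b j| := by
                have h4 := abs_add_le (a j - b j) (b j)
                rwa [sub_add_cancel] at h4
              linarith)
        _ = (X + 1) ^ s.card := by rw [prod_const]
    rw [prod_insert hi, prod_insert hi, card_insert_of_notMem hi]
    have e1 : a i * ∏ j ∈ s, a j - b i * ∏ j ∈ s, b j =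
        (a i - b i) * ∏ j ∈ s, a j + b i * (∏ j ∈ s, a j - ∏ j ∈ s, b j) := by ring
    rw [e1]
    have hp : (0 : ℝ) ≤ (X + 1) ^ s.card := by positivity
    calc |(a i - b i) * ∏ j ∈ s, a j + b i * (∏ j ∈ s, a j - ∏ j ∈ s, b j)|
        ≤ |(a i - b i) * ∏ j ∈ s, a j| + |b i * (∏ j ∈ s, a j - ∏ j ∈ s, b j)| := abs_add_le _ _
      _ = |a i - b i| * |∏ j ∈ s, a j| + |b i| * |∏ j ∈ s, a j - ∏ j ∈ s, b j| := by
          rw [abs_mul, abs_mul]
      _ ≤ e * (X + 1) ^ s.card + X * (s.card * e * (X + 1) ^ s.card) := by gcongr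
      _ ≤ ((s.card + 1 : ℕ) : ℝ) * e * (X + 1) ^ (s.card + 1) := by
          have h5 : ((s.card + 1 : ℕ) : ℝ) * e * (X + 1) ^ (s.card + 1) -
              (e * (X + 1) ^ s.card + X * (s.card * e * (X + 1) ^ s.card)) =
              e * (X + 1) ^ s.card * (s.card + X) := by
            rw [pow_succ]; push_cast; ring
          have h6 : 0 ≤ e * (X + 1) ^ s.card * (s.card + X) := by positivity
          linarith

theorem choose_prod (N κ : ℕ) :
    ((N.choose κ : ℕ) : ℝ) * (κ.factorial : ℝ) = ∏ j ∈ range κ, ((N : ℝ) - j) := by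
  have h : ∀ κ : ℕ, ((N.descFactorial κ : ℕ) : ℝ) = ∏ j ∈ range κ, ((N : ℝ) - j) := by
    intro κ
    induction κ with
    | zero => simp
    | succ κ ih =>
      rw [Nat.descFactorial_succ, prod_range_succ, ← ih, Nat.cast_mul]
      rcases le_or_gt κ N with h | h
      · rw [Nat.cast_sub h]; ring
      · rw [(Nat.descFactorial_eq_zero_iff_lt).2 h]; simp
  rw [← h, Nat.descFactorial_eq_factorial_mul_choose, Nat.cast_mul]
  ring

theorem loc {k : ℕ} (κ N : Fin k → ℕ) (μ : Fin k → ℝ) (v X e : ℝ) (hX : 0 ≤ X) (he : 0 ≤ e)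
    (he1 : e ≤ 1) (hμ : ∀ i, |μ i| ≤ X)
    (h : ∀ i, ∀ j ∈ range (κ i), |v * ((N i : ℝ) - j) - μ i| ≤ e) :
    |v ^ (∑ i, κ i) * ∏ i, ((N i).choose (κ i) : ℝ) - mt κ μ| ≤
      ((∑ i, κ i : ℕ) : ℝ) * e * (X + 1) ^ (∑ i, κ i) := by
  set F : ℝ := ∏ i, ((κ i).factorial : ℝ) with hF
  have hF1 : 1 ≤ F := by
    rw [hF]
    have : (1 : ℝ) = ∏ _i : Fin k, (1 : ℝ) := by simp
    rw [this]
    exact prod_le_prod (fun _ _ => zero_le_one) fun i _ => by
      exact_mod_cast Nat.one_le_iff_ne_zero.2 (Nat.factorial_ne_zero _)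
  have hF0 : 0 < F := by linarith
  set Sg := (univ : Finset (Fin k)).sigma (fun i => range (κ i)) with hSg
  have hcard : Sg.card = ∑ i, κ i := by
    rw [hSg, card_sigma]
    exact sum_congr rfl fun i _ => card_range _
  have e1 : v ^ (∑ i, κ i) * ∏ i, ((N i).choose (κ i) : ℝ) =
      (∏ x ∈ Sg, v * ((N x.1 : ℝ) - x.2)) / F := by
    rw [eq_div_iff hF0.ne', hSg, prod_sigma]
    have h1 : ∀ i ∈ (univ : Finset (Fin k)), ∏ j ∈ range (κ i), v * ((N i : ℝ) - j) =
        v ^ κ i * (((N i).choose (κ i) : ℝ) * ((κ i).factorial : ℝ)) := by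
      intro i _
      rw [prod_mul_distrib, prod_const, card_range, choose_prod]
    rw [prod_congr rfl h1, prod_mul_distrib, prod_mul_distrib, prod_pow_eq_pow_sum, hF]
    ring
  have e2 : mt κ μ = (∏ x ∈ Sg, μ x.1) / F := by
    rw [eq_div_iff hF0.ne', hSg, prod_sigma, hF]
    unfold Pool.Agent.K1H73.SQB.mt
    rw [← prod_mul_distrib]
    refine prod_congr rfl fun i _ => ?_
    have h3 : ∏ _j ∈ range (κ i), μ i = μ i ^ κ i := by rw [prod_const, card_range]
    have h4 : ((κ i).factorial : ℝ) ≠ 0 := by exact_mod_cast Nat.factorial_ne_zero _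
    rw [div_mul_cancel₀ _ h4]
    exact h3.symm
  rw [e1, e2, ← sub_div, abs_div, abs_of_pos hF0]
  have h2 := prod_close Sg (fun x => v * ((N x.1 : ℝ) - x.2)) (fun x => μ x.1) X e hX he he1
    (fun x _ => hμ x.1) (fun x hx => h x.1 x.2 (mem_sigma.1 hx).2)
  rw [hcard] at h2
  refine le_trans ?_ h2
  exact div_le_self (abs_nonneg _) hF1

theorem nb_close (h1 : S_DEN) (q a w S U m : ℕ) (hq : Squarefree q) (ha : a.Coprime q)
    (hqw : q ≤ w) :
    |(Nb q a w S U m : ℝ) - ((U - S : ℕ) : ℝ) * V1 w / (Nat.totient q : ℝ)| ≤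
      Pool.Agent.Y681.SQ.Mw w := by
  have h := h1 q a w (m ^ 2 + S) (U - S) hq ha hqw
  have he : Nb q a w S U m = ((Ioc (m ^ 2 + S) (m ^ 2 + S + (U - S))).filter
      (fun x => ∀ p ∈ pr w, ¬ p ∣ x ∧ (p ∣ q → x % p = a % p))).card := by
    classical
    unfold Nb
    refine card_bij (fun h _ => m ^ 2 + h) ?_ ?_ ?_
    · intro h hh
      rw [mem_filter, mem_Ioc] at hh ⊢
      exact ⟨by omega, hh.2⟩
    · intro a _ b _ hab
      have hab' : m ^ 2 + a = m ^ 2 + b := hab
      omega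
    · intro x hx
      rw [mem_filter, mem_Ioc] at hx
      have h2 : m ^ 2 + (x - m ^ 2) = x := by omega
      refine ⟨x - m ^ 2, ?_, h2⟩
      rw [mem_filter, mem_Ioc]
      exact ⟨by omega, by rw [h2]; exact hx.2⟩
  rw [he]
  exact h

theorem card_uc {k : ℕ} (s κ S U : Fin k → ℕ) (G : Fin k → Finset ℕ) (hG : G ∈ bx κ S U)
    (hd : ∀ i j, i ≠ j → s i = s j → Disjoint (G i) (G j)) : (uc s G).card = ∑ i, κ i := by
  unfold uc
  rw [card_biUnion]
  · refine sum_congr rfl fun i _ => ?_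
    rw [card_image_of_injective _ (fun x y h => by simpa using h)]
    exact (mem_powersetCard.1 (Fintype.mem_piFinset.1 hG i)).2
  · intro i _ j _ hij
    rw [Function.onFun, disjoint_left]
    rintro z hz hz'
    obtain ⟨x, hx, rfl⟩ := mem_image.1 hz
    obtain ⟨y, hy, hxy⟩ := mem_image.1 hz'
    have h1 : s j = s i ∧ y = x := by simpa using hxy
    exact disjoint_left.1 (hd i j hij h1.1.symm) hx (h1.2 ▸ hy)

theorem triv {k : ℕ} (q : ℕ) (a s κ S U : Fin k → ℕ) (y : ℕ) (hκ : ∀ i, κ i = 0) :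
    ∑ G ∈ bx κ S U, DC q a s G y = mt κ (fun i => mu q y (S i) (U i)) := by
  classical
  have hbx : bx κ S U = {fun _ => ∅} := by
    unfold bx
    ext G
    rw [Fintype.mem_piFinset, mem_singleton]
    constructor
    · intro h
      funext i
      have h1 := h i
      rw [hκ i, powersetCard_zero, mem_singleton] at h1
      exact h1
    · rintro rfl i
      rw [hκ i, powersetCard_zero, mem_singleton]
  have hD : DC q a s (fun _ : Fin k => (∅ : Finset ℕ)) y = 1 := by
    unfold DC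
    refine prod_eq_one fun p _ => ?_
    have : rC q a s (fun _ : Fin k => (∅ : Finset ℕ)) p = 0 := by
      unfold rC
      rw [card_eq_zero, filter_eq_empty_iff]
      rintro r - ⟨i, h, hh, -⟩
      simp at hh
    rw [this]
    simp
  have hm : mt κ (fun i => mu q y (S i) (U i)) = 1 := by
    unfold Pool.Agent.K1H73.SQB.mt
    refine prod_eq_one fun i _ => ?_
    rw [hκ i]
    simp
  rw [hbx, sum_singleton, hD, hm]

theorem t_BOX2 (h1 : S_DEN) (h2 : S_EXM2) (h3 : S_ERR2) (h4 : S_SPL2) (h5 : S_MUL2)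
    (h6 : S_TAIL2) : S_BOX2 := by
  classical
  intro k q a s κ x0 η hq ha hη
  have hq0 : 0 < q := Nat.pos_of_ne_zero hq.ne_zero
  by_cases hK : ∑ i, κ i = 0
  · have hκ : ∀ i, κ i = 0 := fun i => (Finset.sum_eq_zero_iff.1 hK) i (mem_univ i)
    refine ⟨0, 0, fun y T _ _ _ S U _ _ => ?_⟩
    rw [triv q a s κ S U y hκ, sub_self, abs_zero]
    exact hη.le
  set K := ∑ i, κ i with hKdef
  have hK1 : 1 ≤ K := Nat.one_le_iff_ne_zero.2 hK
  have hKr : (1 : ℝ) ≤ K := by exact_mod_cast hK1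
  set J := ∑ i, s i with hJdef
  have hJ : ∀ i, s i ≤ J := fun i =>
    single_le_sum (f := s) (fun _ _ => Nat.zero_le _) (mem_univ i)
  set X : ℝ := max x0 1 with hXdef
  have hX1 : 1 ≤ X := le_max_right _ _
  have hX0 : x0 ≤ X := le_max_left _ _
  have hXp : 0 < X := by linarith
  set B : ℝ := 2 ^ (k * K) with hBdef
  have hB : 0 < B := by positivity
  set D : ℝ := X ^ K + 1 + 2 * B * X ^ K with hDdef
  have hD : 0 < D := by positivity
  set δ : ℝ := min 1 (η / (2 * D)) with hδdef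
  have hδ : 0 < δ := lt_min one_pos (by positivity)
  have hδ1 : δ ≤ 1 := min_le_left _ _
  have hδD : δ * D ≤ η / 2 := by
    have h7 : δ ≤ η / (2 * D) := min_le_right _ _
    calc δ * D ≤ η / (2 * D) * D := by gcongr
      _ = η / 2 := by field_simp
  obtain ⟨w, T1, hqw, hKw, hδw, hE⟩ := h3 K J q δ hK1 hδ
  set M : ℝ := (Pool.Agent.Y681.SQ.Mw w : ℝ) with hMdef
  have hM : 0 < M := by
    rw [hMdef]
    exact_mod_cast Pool.Agent.Y681.SQ.Mw_pos w
  clear_value δ D B X
  have hV1w := V1_pos w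
  set e2 : ℝ := min 1 (η / 2) with he2def
  have he2 : 0 < e2 := lt_min one_pos (by positivity)
  have he21 : e2 ≤ 1 := min_le_left _ _
  have he2η : e2 ≤ η / 2 := min_le_right _ _
  set e : ℝ := min 1 (e2 / (K * (X + 1) ^ K)) with hedef
  have he : 0 < e := lt_min one_pos (by positivity)
  have he1 : e ≤ 1 := min_le_left _ _
  have hee2 : (K : ℝ) * e * (X + 1) ^ K ≤ e2 := by
    have h7 : e ≤ e2 / (K * (X + 1) ^ K) := min_le_right _ _
    calc (K : ℝ) * e * (X + 1) ^ K ≤ (K : ℝ) * (e2 / (K * (X + 1) ^ K)) * (X + 1) ^ K := by gcongr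
      _ = e2 := by
          have : (X + 1) ^ K ≠ 0 := by positivity
          field_simp
  clear_value e e2
  obtain ⟨T2, hT2⟩ := exists_nat_ge (X * (M + K) / (V1 w * e))
  refine ⟨w, max 1 (max T1 T2), fun y T hy hT hTx S U hU hDj => ?_⟩
  have hT0 : 1 ≤ T := le_trans (le_max_left _ _) hT
  have hTT1 : T1 ≤ T := le_trans (le_trans (le_max_left _ _) (le_max_right _ _)) hT
  have hTT2 : T2 ≤ T := le_trans (le_trans (le_max_right _ _) (le_max_right _ _)) hT
  have hTr : (0 : ℝ) < T := by exact_mod_cast hT0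
  set v : ℝ := V1t w y with hvdef
  have hv : 0 < v := V1t_pos w y
  have hV : V1 y = V1 w * v := V1_split hy
  have hTXv : (T : ℝ) * V1 w * v ≤ X := by
    have : (T : ℝ) * V1 w * v = T * V1 y := by rw [hV]; ring
    rw [this]
    exact hTx.trans hX0
  have hve : v * (M + K) ≤ e := by
    have h7 : X * (M + K) ≤ T * (V1 w * e) := by
      rw [← div_le_iff₀ (by positivity)]
      exact hT2.trans (by exact_mod_cast hTT2)
    have h8 : v * (M + K) * (T * V1 w) ≤ e * (T * V1 w) := by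
      calc v * (M + K) * (T * V1 w) = ((T : ℝ) * V1 w * v) * (M + K) := by ring
        _ ≤ X * (M + K) := by gcongr
        _ ≤ T * (V1 w * e) := h7
        _ = e * (T * V1 w) := by ring
    exact le_of_mul_le_mul_right h8 (by positivity)
  set a0 : ℝ := v ^ K with ha0def
  have ha0 : 0 < a0 := pow_pos hv K
  have ha0X : a0 * ((T : ℝ) * V1 w) ^ K ≤ X ^ K := by
    rw [ha0def, ← mul_pow]
    exact pow_le_pow_left₀ (by positivity) (by linarith [hTXv, mul_comm v ((T : ℝ) * V1 w)]) K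
  -- the means
  set μ : Fin k → ℝ := fun i => mu q y (S i) (U i) with hμdef
  have hφ : (1 : ℝ) ≤ (Nat.totient q : ℝ) := by
    exact_mod_cast Nat.one_le_iff_ne_zero.2 (Nat.totient_pos.2 hq0).ne'
  have hμ0 : ∀ i, 0 ≤ μ i := by
    intro i
    rw [hμdef]
    show 0 ≤ mu q y (S i) (U i)
    unfold mu
    have := V1_pos y
    positivity
  have hμX : ∀ i, μ i ≤ X := by
    intro i
    show mu q y (S i) (U i) ≤ X
    unfold mu
    have h7 : ((U i - S i : ℕ) : ℝ) ≤ T := by
      exact_mod_cast (Nat.sub_le _ _).trans (hU i)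
    have h8 := V1_pos y
    calc ((U i - S i : ℕ) : ℝ) * V1 y / (Nat.totient q : ℝ) ≤ ((U i - S i : ℕ) : ℝ) * V1 y :=
          div_le_self (by positivity) hφ
      _ ≤ T * V1 y := by gcongr
      _ ≤ X := hTx.trans hX0
  have hmt0 : 0 ≤ mt κ μ := by
    unfold Pool.Agent.K1H73.SQB.mt
    exact prod_nonneg fun i _ => by
      have := hμ0 i
      positivity
  have hmtX : mt κ μ ≤ X ^ K := by
    unfold Pool.Agent.K1H73.SQB.mt
    calc ∏ i, μ i ^ κ i / ((κ i).factorial : ℝ) ≤ ∏ i, X ^ κ i := by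
          refine prod_le_prod (fun i _ => ?_) fun i _ => ?_
          · have := hμ0 i
            positivity
          · have h7 : (1 : ℝ) ≤ ((κ i).factorial : ℝ) := by
              exact_mod_cast Nat.one_le_iff_ne_zero.2 (Nat.factorial_ne_zero _)
            have h8 := hμ0 i
            exact (div_le_self (by positivity) h7).trans (pow_le_pow_left₀ h8 (hμX i) _)
      _ = X ^ K := by rw [prod_pow_eq_pow_sum, hKdef]
  -- the local estimate
  have hloc : ∀ n : ℕ, |a0 * ∏ i, ((Nb q (a i) w (S i) (U i) (n + s i)).choose (κ i) : ℝ) -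
      mt κ μ| ≤ e2 := by
    intro n
    have h7 := loc κ (fun i => Nb q (a i) w (S i) (U i) (n + s i)) μ v X e hXp.le he.le he1
      (fun i => by rw [abs_of_nonneg (hμ0 i)]; exact hμX i) (by
        intro i j hj
        have hj' : j < κ i := mem_range.1 hj
        have hκK : κ i ≤ K := single_le_sum (f := κ) (fun _ _ => Nat.zero_le _) (mem_univ i)
        have hjK : (j : ℝ) ≤ K := by exact_mod_cast (by omega : j ≤ K)
        have h8 := nb_close h1 q (a i) w (S i) (U i) (n + s i) hq (ha i) hqw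
        rw [← hMdef] at h8
        have h9 : μ i = v * (((U i - S i : ℕ) : ℝ) * V1 w / (Nat.totient q : ℝ)) := by
          show mu q y (S i) (U i) = _
          unfold mu
          rw [hV]
          ring
        rw [h9]
        have h10 : v * ((Nb q (a i) w (S i) (U i) (n + s i) : ℝ) - j) -
            v * (((U i - S i : ℕ) : ℝ) * V1 w / (Nat.totient q : ℝ)) =
            v * ((Nb q (a i) w (S i) (U i) (n + s i) : ℝ) -
              ((U i - S i : ℕ) : ℝ) * V1 w / (Nat.totient q : ℝ)) - v * j := by ring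
        rw [h10]
        calc |v * ((Nb q (a i) w (S i) (U i) (n + s i) : ℝ) -
              ((U i - S i : ℕ) : ℝ) * V1 w / (Nat.totient q : ℝ)) - v * j|
            ≤ |v * ((Nb q (a i) w (S i) (U i) (n + s i) : ℝ) -
              ((U i - S i : ℕ) : ℝ) * V1 w / (Nat.totient q : ℝ))| + |v * j| := abs_sub _ _
          _ = v * |(Nb q (a i) w (S i) (U i) (n + s i) : ℝ) -
              ((U i - S i : ℕ) : ℝ) * V1 w / (Nat.totient q : ℝ)| + v * j := by
              rw [abs_mul, abs_mul, abs_of_pos hv, abs_of_nonneg (by positivity : (0 : ℝ) ≤ j)]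
          _ ≤ v * M + v * K := by gcongr
          _ = v * (M + K) := by ring
          _ ≤ e := hve)
    exact h7.trans hee2
  -- the small primes
  set W : ℝ := ∑ G ∈ bx κ S U, DC q a s G w with hWdef
  have hW : |a0 * W - mt κ μ| ≤ e2 := by
    have h7 := h2 k q w a s κ S U
    rw [← hMdef, ← hWdef] at h7
    have h8 : M * (a0 * W - mt κ μ) = ∑ n ∈ range (Pool.Agent.Y681.SQ.Mw w),
        (a0 * ∏ i, ((Nb q (a i) w (S i) (U i) (n + s i)).choose (κ i) : ℝ) - mt κ μ) := by
      rw [sum_sub_distrib, ← mul_sum, ← h7, sum_const, card_range, nsmul_eq_mul, ← hMdef]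
      ring
    have h9 : M * |a0 * W - mt κ μ| ≤ M * e2 := by
      calc M * |a0 * W - mt κ μ| = |M * (a0 * W - mt κ μ)| := by rw [abs_mul, abs_of_pos hM]
        _ ≤ ∑ n ∈ range (Pool.Agent.Y681.SQ.Mw w),
            |a0 * ∏ i, ((Nb q (a i) w (S i) (U i) (n + s i)).choose (κ i) : ℝ) - mt κ μ| := by
            rw [h8]; exact abs_sum_le_sum_abs _ _
        _ ≤ ∑ n ∈ range (Pool.Agent.Y681.SQ.Mw w), e2 := sum_le_sum fun n _ => hloc n
        _ = M * e2 := by rw [sum_const, card_range, nsmul_eq_mul, ← hMdef]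
    exact le_of_mul_le_mul_left h9 hM
  -- the large primes
  set f : Finset (ℕ × ℕ) → ℝ := fun H => |∏ z ∈ H, Ff w y z.2 - 1| + (∏ z ∈ H, Ff w y z.2) *
    ∑ x ∈ prs2 H, (Dd ((1 + 4 * K) ^ (K ^ 2) - 1) w (Rn x.1 x.2) - 1) with hfdef
  have hF0 : ∀ H : Finset (ℕ × ℕ), 0 ≤ ∏ z ∈ H, Ff w y z.2 := fun H =>
    prod_nonneg fun z _ => Ff_nonneg w y z.2
  have hd0 : ∀ H : Finset (ℕ × ℕ),
      0 ≤ ∑ x ∈ prs2 H, (Dd ((1 + 4 * K) ^ (K ^ 2) - 1) w (Rn x.1 x.2) - 1) := fun H =>
    sum_nonneg fun x _ => Dd_ge _ _ _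
  have hf0 : ∀ H, 0 ≤ f H := fun H => add_nonneg (abs_nonneg _) (mul_nonneg (hF0 H) (hd0 H))
  have hsum : ∑ G ∈ (bx κ S U).filter (fun G => ∀ i j, i ≠ j → s i = s j → Disjoint (G i) (G j)),
      f (uc s G) ≤ B * (2 * (δ * (T * V1 w) ^ K)) := by
    have h7 := h5 k J T s κ S U f hf0 hJ hU
    rw [← hKdef, ← hBdef] at h7
    refine h7.trans ?_
    obtain ⟨h8, h9⟩ := hE T hTT1 y hy
    have h10 : ∑ H ∈ powersetCard K (EE J T), f H ≤ 2 * (δ * (T * V1 w) ^ K) := by
      rw [hfdef, sum_add_distrib]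
      linarith
    gcongr
  have hone : ∀ G ∈ bx κ S U, |DC q a s G y - a0 * DC q a s G w| ≤ δ * (a0 * DC q a s G w) +
      if (∀ i j, i ≠ j → s i = s j → Disjoint (G i) (G j)) then a0 * f (uc s G) else 0 := by
    intro G hG
    obtain ⟨h7, h8, h9, h10⟩ := h4 k q w y a s G hq hq0 hqw hy
    split_ifs with hgood
    · have hc := card_uc s κ S U G hG hgood
      have h11 := h6 (uc s G) w y (by rw [hc]; exact hKw)
      rw [hc, ← hKdef, ← hvdef, ← ha0def] at h11
      obtain ⟨h12, h13⟩ := h11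
      set u := DC q a s G w with hudef
      set F := ∏ z ∈ uc s G, Ff w y z.2 with hFdef
      set d := ∑ x ∈ prs2 (uc s G), (Dd ((1 + 4 * K) ^ (K ^ 2) - 1) w (Rn x.1 x.2) - 1) with hddef
      have hFn : 0 ≤ F := hF0 _
      have hdn : 0 ≤ d := hd0 _
      have hfe : f (uc s G) = |F - 1| + F * d := rfl
      clear_value F d u
      rw [h7, hfe]
      have hlow := low_aux (P := F) h8 h9
      have hup := up_aux (P := F) h8 h9
      have hab := abs_nonneg (F - 1)
      rw [abs_le]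
      constructor
      · have h14 : a0 * F * (1 - δ) ≤ VT2 (uc s G) w y := by
          refine le_trans ?_ h12
          have : 0 ≤ a0 * F := by positivity
          gcongr
        have h15 : u * (a0 * F * (1 - δ)) ≤ u * VT2 (uc s G) w y := by gcongr
        have h16 : a0 * (1 - δ) * (u - |F - 1|) ≤ u * (a0 * F * (1 - δ)) := by
          have h17 : 0 ≤ a0 * (1 - δ) := mul_nonneg ha0.le (by linarith)
          calc a0 * (1 - δ) * (u - |F - 1|) ≤ a0 * (1 - δ) * (u * F) := by gcongr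
            _ = u * (a0 * F * (1 - δ)) := by ring
        have h18 : a0 * (1 - δ) * (u - |F - 1|) = a0 * u - δ * (a0 * u) - a0 * |F - 1| +
            δ * a0 * |F - 1| := by ring
        have h19 : 0 ≤ δ * a0 * |F - 1| := by positivity
        have h20 : 0 ≤ a0 * (F * d) := by positivity
        have h21 : a0 * (|F - 1| + F * d) = a0 * |F - 1| + a0 * (F * d) := by ring
        have h22 := h16.trans h15
        linarith
      · have h15 : u * VT2 (uc s G) w y ≤ u * (a0 * F * (1 + d)) := by gcongr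
        have h16 : u * (a0 * F * (1 + d)) = a0 * (u * F) + a0 * (u * (F * d)) := by ring
        have h17 : a0 * (u * F) ≤ a0 * (u + |F - 1|) := by gcongr
        have h18 : a0 * (u * (F * d)) ≤ a0 * (1 * (F * d)) := by gcongr
        have h19 : 0 ≤ δ * (a0 * u) := by positivity
        have h20 : a0 * (u + |F - 1|) = a0 * u + a0 * |F - 1| := by ring
        have h21 : a0 * (1 * (F * d)) = a0 * (F * d) := by ring
        have h22 : a0 * (|F - 1| + F * d) = a0 * |F - 1| + a0 * (F * d) := by ring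
        linarith
    · have hex : ∃ i j, i ≠ j ∧ s i = s j ∧ ¬ Disjoint (G i) (G j) := by
        by_contra hno
        apply hgood
        intro i j hij hs
        by_contra hdis
        exact hno ⟨i, j, hij, hs, hdis⟩
      obtain ⟨i, j, hij, hs, hdis⟩ := hex
      have hsub : ∀ i, G i ⊆ Ioc (S i) (U i) := fun i =>
        (mem_powersetCard.1 (Fintype.mem_piFinset.1 hG i)).1
      have hne : a i % q ≠ a j % q := by
        rcases hDj i j hij with h11 | h11 | h11
        · exact absurd hs h11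
        · exact h11
        · exact absurd (disjoint_of_subset_left (hsub i) (disjoint_of_subset_right (hsub j) h11))
            hdis
      have h11 := h10 i j hs hne hdis
      rw [h7, h11]
      simp
  have hbig : |∑ G ∈ bx κ S U, DC q a s G y - a0 * W| ≤ δ * (a0 * W) +
      B * (2 * (δ * X ^ K)) := by
    have h7 : ∑ G ∈ bx κ S U, DC q a s G y - a0 * W =
        ∑ G ∈ bx κ S U, (DC q a s G y - a0 * DC q a s G w) := by
      rw [sum_sub_distrib, ← mul_sum]
    rw [h7]
    calc |∑ G ∈ bx κ S U, (DC q a s G y - a0 * DC q a s G w)|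
        ≤ ∑ G ∈ bx κ S U, |DC q a s G y - a0 * DC q a s G w| := abs_sum_le_sum_abs _ _
      _ ≤ ∑ G ∈ bx κ S U, (δ * (a0 * DC q a s G w) +
          if (∀ i j, i ≠ j → s i = s j → Disjoint (G i) (G j)) then a0 * f (uc s G) else 0) :=
          sum_le_sum hone
      _ = δ * (a0 * W) + a0 * ∑ G ∈ (bx κ S U).filter
          (fun G => ∀ i j, i ≠ j → s i = s j → Disjoint (G i) (G j)), f (uc s G) := by
          rw [sum_add_distrib, ← mul_sum, ← mul_sum, ← sum_filter, ← mul_sum]
      _ ≤ δ * (a0 * W) + a0 * (B * (2 * (δ * (T * V1 w) ^ K))) := by gcongr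
      _ = δ * (a0 * W) + B * (2 * (δ * (a0 * (T * V1 w) ^ K))) := by ring
      _ ≤ δ * (a0 * W) + B * (2 * (δ * X ^ K)) := by gcongr
  have hWX : a0 * W ≤ X ^ K + 1 := by
    have := (abs_le.1 hW).2
    linarith
  calc |∑ G ∈ bx κ S U, DC q a s G y - mt κ μ|
      ≤ |∑ G ∈ bx κ S U, DC q a s G y - a0 * W| + |a0 * W - mt κ μ| := abs_sub_le _ _ _
    _ ≤ (δ * (a0 * W) + B * (2 * (δ * X ^ K))) + e2 := add_le_add hbig hW
    _ ≤ (δ * (X ^ K + 1) + B * (2 * (δ * X ^ K))) + e2 := by gcongr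
    _ = δ * D + e2 := by rw [hDdef]; ring
    _ ≤ η := by linarith

end Pool.Agent.K1H66.SQB
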